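import Pool.Agent.Helper4.PQS.St0

/-!
# Project PQS (MP_2b6189_al), module CBE
-/

set_option autoImplicit false

namespace Pool.Agent.Helper42.PQS

open Matrix ComplexConjugate Pool.Agent.Helper94.YF Pool.Agent.Helper94.YG Pool.Agent.Helper89.OS
  Pool.Agent.Helper89.OC Pool.Agent.Helper46.WG Pool.Agent.Helper4.PQS

section

variable {I : Type} [Fintype I] [DecidableEq I]

theorem cbe_n (Z : CentreData I) : (Z.n : ℂ) ≠ 0 := Nat.cast_ne_zero.2 Z.n_pos.ne'

theorem cbe_o (Z : CentreData I) (i : I) : Sf Z Z.o i = Z.d i := by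
  have h1 := cbe_n Z
  unfold Sf
  rw [Z.s_o]
  field_simp

theorem cbe_dual (Z : CentreData I) (i j : I) : Sf Z (Z.st i) j = conj (Sf Z i j) := by
  unfold Sf
  rw [Z.s_dual, map_mul, Complex.conj_natCast]

theorem cbe_symm (Z : CentreData I) (i j : I) : Sf Z i j = Sf Z j i := by
  unfold Sf
  rw [Z.s_symm]

theorem cbe_orth0 (Z : CentreData I) (i j : I) :
    ∑ l, conj (Sf Z i l) * Sf Z j l = if i = j then (Z.n : ℂ) ^ 2 else 0 := by
  have h1 : Z.rho Sm * (Z.rho Sm)ᴴ = 1 := mul_eq_one_comm.1 (Z.unitary Sm)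
  have h2 := congrFun (congrFun h1 j) i
  rw [Matrix.mul_apply, Matrix.one_apply] at h2
  simp only [Matrix.conjTranspose_apply, RCLike.star_def] at h2
  have h3 : ∑ l, conj (Sf Z i l) * Sf Z j l
      = (Z.n : ℂ) ^ 2 * ∑ l, Z.rho Sm j l * conj (Z.rho Sm i l) := by
    rw [Finset.mul_sum]
    refine Finset.sum_congr rfl fun l _ => ?_
    unfold Sf
    rw [map_mul, Complex.conj_natCast]
    ring
  rw [h3, h2]
  by_cases hij : i = j
  · rw [if_pos hij, if_pos hij.symm, mul_one]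
  · rw [if_neg hij, if_neg (fun h => hij h.symm), mul_zero]

theorem cbe_dim (Z : CentreData I) : ((∑ l, Z.d l ^ 2 : ℕ) : ℂ) = (Z.n : ℂ) ^ 2 := by
  have h := cbe_orth0 Z Z.o Z.o
  rw [if_pos rfl] at h
  rw [← h]
  push_cast
  refine Finset.sum_congr rfl fun l _ => ?_
  rw [cbe_o, Complex.conj_natCast]
  ring

/-- the integral modular datum of the centre -/
noncomputable def MZ (Z : CentreData I) : IntegralModularDatum I where
  unit := Z.o
  dual := Z.st
  d := Z.d
  s i j := conj (Sf Z i j)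
  N := Z.N
  d_pos := Z.d_pos
  d_unit := Z.d_o
  s_unit i := by rw [cbe_o, Complex.conj_natCast]
  s_symm i j := by rw [cbe_symm]
  s_dual i j := by rw [cbe_dual]
  orth i j := by
    simp only [Complex.conj_conj]
    rw [cbe_orth0, cbe_dim]
  verlinde i j l := by
    have h1 := Z.verlinde i j l
    have h2 := cbe_n Z
    have h3 : Sf Z i l * Sf Z j l = (Z.d l : ℂ) * ∑ k, (Z.N i j k : ℂ) * Sf Z k l := by
      have e1 : ∑ k, (Z.N i j k : ℂ) * Sf Z k l = (Z.n : ℂ) * ∑ k, (Z.N i j k : ℂ) * Z.rho Sm k l := by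
        rw [Finset.mul_sum]
        refine Finset.sum_congr rfl fun k _ => ?_
        unfold Sf
        ring
      rw [e1]
      have e2 : Sf Z i l * Sf Z j l = (Z.n : ℂ) ^ 2 * (Z.rho Sm i l * Z.rho Sm j l) := by
        unfold Sf
        ring
      rw [e2, h1, Z.s_o]
      field_simp
    rw [← map_mul, h3, map_mul, Complex.conj_natCast, map_sum]
    congr 1
    refine Finset.sum_congr rfl fun k _ => ?_
    rw [map_mul, Complex.conj_natCast]

theorem cbe_twist (Z : CentreData I) : (MZ Z).IsTwist Z.th := by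
  obtain ⟨-, fL, -, -, -, -, -, -, -, -, -⟩ := Helper36.YF.hFUS Helper88.YF.hDUA I Z.toCentreRep
  obtain ⟨dss, -, -, dth, -, -⟩ := Helper88.YF.hDUA I Z.toCentreRep
  refine ⟨fun i => Complex.norm_eq_one_of_pow_eq_one (fL i) Z.L_pos.ne', Z.th_o, dth, ?_⟩
  intro i j
  have h := (Helper38.OC.hGLC Helper36.OC.hGLA Helper1.OC.hGLB I Z).twist i (Z.st j)
  rw [dss, dth, cbe_symm Z i (Z.st j), cbe_dual, cbe_symm Z j i] at h
  show Z.th i * Z.th j * conj (Sf Z i j) = ∑ k, (Z.N i j k : ℂ) * Z.th k * Z.d k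
  rw [mul_comm (Z.th i * Z.th j), h]
  exact Finset.sum_congr rfl fun k _ => by ring

theorem cbe_tan (Z : CentreData I)
    (h : ∃ F : Finset I, (MZ Z).IsFusion F ∧ (MZ Z).IsSymmetric F ∧ (∀ i ∈ F, Z.th i = 1) ∧
      F ≠ {(MZ Z).unit}) : ∃ D : I → Prop, TanSet Z D := by
  obtain ⟨F, hF, hS, hth, hne⟩ := h
  refine ⟨fun i => i ∈ F, hF.unit_mem, ?_, hF.dual_mem, fun x y z hx hy hz => hF.mul_mem x hx y hy z hz,
    hth, ?_⟩
  · by_contra hcon
    push Not at hcon
    apply hne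
    ext i
    rw [Finset.mem_singleton]
    exact ⟨fun hi => hcon i hi, fun hi => by rw [hi]; exact hF.unit_mem⟩
  · intro x y hx hy
    have h1 : conj (Sf Z x y) = (Z.d x : ℂ) * Z.d y := hS x hx y hy
    have h2 := congrArg conj h1
    rw [Complex.conj_conj, map_mul, Complex.conj_natCast, Complex.conj_natCast] at h2
    exact h2

end

/-- **PQS MODULE CBE.** -/
theorem hCBE : StCBE := by
  intro hT hP I _ _ Z k hk hth hδ
  by_cases hN : (MZ Z).NoSym
  · exact absurd hk (hP hT I (MZ Z) hN k)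
  · unfold IntegralModularDatum.NoSym at hN
    push Not at hN
    obtain ⟨F, hF, hS, h1⟩ := hN
    rcases IntegralModularDatum.tannakian_or_fermion (cbe_twist Z) hF hS h1 with
      h2 | ⟨δ, hd, hδ0, hdual, hs, hthδ⟩
    · exact cbe_tan Z h2
    · have hf : (MZ Z).IsFermion Z.th δ := ⟨cbe_twist Z, hd, hδ0, hdual, hs, hthδ⟩
      have hkB : k ∈ (MZ Z).cent {(MZ Z).unit, δ} := by
        rw [IntegralModularDatum.mem_B hf]
        show conj (Sf Z k δ) = (Z.d k : ℂ)
        rw [hδ δ hd hdual, Complex.conj_natCast]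
      have hkR : k ∈ IntegralModularDatum.RR hf :=
        (IntegralModularDatum.mem_RR hf).2 ⟨hkB, by rw [hth]; exact upper_one⟩
      by_cases hQ : (IntegralModularDatum.quot hf).NoSym
      · exact absurd hk (hP hT _ (IntegralModularDatum.quot hf) hQ ⟨k, hkR⟩)
      · unfold IntegralModularDatum.NoSym at hQ
        push Not at hQ
        obtain ⟨K, hK, hKS, hK1⟩ := hQ
        exact cbe_tan Z (IntegralModularDatum.tannakian_of_quot hf hK hKS hK1)

end Pool.Agent.Helper42.PQS
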